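import Mathlib

set_option autoImplicit false

namespace Pool.Agent.R331.SM

open IsDedekindDomain NumberField

variable {K : Type} [Field K] [NumberField K]

/-- The valuation subrings of a number field. -/
theorem na (O : ValuationSubring K) (hO : O ≠ ⊤) :
    ∃ p : HeightOneSpectrum (𝓞 K), ∀ z : K, z ∈ O ↔ p.valuation K z ≤ 1 := by
  have hint : ∀ x : 𝓞 K, (x : K) ∈ O := by
    intro x
    have h1 : IsIntegral ℤ (x : K) := RingOfIntegers.isIntegral_coe x
    have h2 : IsIntegral O (x : K) := h1.tower_top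
    obtain ⟨y, hy⟩ := IsIntegrallyClosed.isIntegral_iff.1 h2
    rw [← hy]
    exact y.2
  let ι : 𝓞 K →+* O := (algebraMap (𝓞 K) K).codRestrict O.toSubring hint
  let q : Ideal (𝓞 K) := (IsLocalRing.maximalIdeal O).comap ι
  have hq : q.IsPrime := Ideal.IsPrime.comap ι
  have hmem : ∀ x : 𝓞 K, x ∈ q ↔ O.valuation (x : K) < 1 := by
    intro x
    rw [Ideal.mem_comap, ValuationSubring.valuation_lt_one_iff]
    rfl
  have hq0 : q ≠ ⊥ := by
    intro hq0
    apply hO
    rw [eq_top_iff]
    intro z _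
    obtain ⟨x, y, hy, rfl⟩ := IsFractionRing.div_surjective (A := 𝓞 K) z
    have hy0 : y ≠ 0 := nonZeroDivisors.ne_zero hy
    have h1 : ¬ O.valuation (y : K) < 1 := by
      rw [← hmem, hq0]
      simpa using hy0
    have h2 : O.valuation (y : K) = 1 := by
      rcases lt_or_eq_of_le ((ValuationSubring.valuation_le_one_iff O _).2 (hint y)) with h | h
      · exact absurd h h1
      · exact h
    rw [← ValuationSubring.valuation_le_one_iff, map_div₀]
    change O.valuation (x : K) / O.valuation (y : K) ≤ 1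
    rw [h2, div_one]
    exact (ValuationSubring.valuation_le_one_iff O _).2 (hint x)
  let p : HeightOneSpectrum (𝓞 K) := ⟨q, hq, hq0⟩
  refine ⟨p, ?_⟩
  have hle : HeightOneSpectrum.valuationSubringAtPrime K p ≤ O := by
    intro z hz
    have hz1 : p.valuation K z ≤ 1 := by
      have := HeightOneSpectrum.valuationSubringAtPrime_le_valuation (K := K) p hz
      exact this
    obtain ⟨x, ⟨d, hd⟩, h⟩ := HeightOneSpectrum.exists_primeCompl_mul_eq_of_integer p z hz1
    have hd1 : ¬ O.valuation (d : K) < 1 := by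
      rw [← hmem]; exact hd
    have hd2 : O.valuation (d : K) = 1 := by
      rcases lt_or_eq_of_le ((ValuationSubring.valuation_le_one_iff O _).2 (hint d)) with h | h
      · exact absurd h hd1
      · exact h
    rw [← ValuationSubring.valuation_le_one_iff]
    have h3 := congrArg O.valuation h
    rw [map_mul] at h3
    change O.valuation z * O.valuation (d : K) = O.valuation (x : K) at h3
    rw [hd2, mul_one] at h3
    rw [h3]
    exact (ValuationSubring.valuation_le_one_iff O _).2 (hint x)
  have heq := ValuationSubring.eq_of_le_of_ne_top _ hle hO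
  intro z
  rw [← heq, HeightOneSpectrum.valuationSubringAtPrime_eq_valuationSubring]
  rfl

/-- Powers of units come close to one. -/
theorem exists_exp (p : HeightOneSpectrum (𝓞 K)) (b c : K) (hb : p.valuation K b = 1)
    (hc : c ≠ 0) : ∃ e : ℕ, 1 ≤ e ∧ p.valuation K (b ^ e - 1) < p.valuation K c := by
  have hc0 : p.valuation K c ≠ 0 := (Valuation.ne_zero_iff _).2 hc
  obtain ⟨N, hN1, -⟩ := WithZero.exists_exp_neg_natCast_lt_and_lt hc0 hc0
  set γ : (WithZero (Multiplicative ℤ))ˣ :=
    Units.mk0 (min (p.valuation K c) 1) (by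
      rcases min_choice (p.valuation K c) 1 with h | h <;> rw [h]
      · exact hc0
      · exact one_ne_zero) with hγ
  obtain ⟨a, ha⟩ := HeightOneSpectrum.exists_valuation_sub_lt_of_integer p hb.le γ
  have hγ1 : (γ : WithZero (Multiplicative ℤ)) ≤ 1 := min_le_right _ _
  have hγc : (γ : WithZero (Multiplicative ℤ)) ≤ p.valuation K c := min_le_left _ _
  have hva : p.valuation K (algebraMap (𝓞 K) K a) = 1 := by
    have h1 : p.valuation K (algebraMap (𝓞 K) K a - b) < p.valuation K b := by
      rw [hb]; exact lt_of_lt_of_le ha hγ1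
    have h2 := Valuation.map_add_eq_of_lt_left _ h1
    rwa [add_sub_cancel, hb] at h2
  have hfin : Finite (𝓞 K ⧸ p.asIdeal ^ N) := by
    apply Ideal.finiteQuotientOfFreeOfNeBot
    exact pow_ne_zero _ p.ne_bot
  obtain ⟨i, j, hij, hij2⟩ : ∃ i j : ℕ, i < j ∧
      Ideal.Quotient.mk (p.asIdeal ^ N) (a ^ i) = Ideal.Quotient.mk (p.asIdeal ^ N) (a ^ j) := by
    obtain ⟨i, j, hne, h⟩ := Finite.exists_ne_map_eq_of_infinite
      (fun i : ℕ => Ideal.Quotient.mk (p.asIdeal ^ N) (a ^ i))
    rcases lt_or_gt_of_ne hne with h1 | h1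
    · exact ⟨i, j, h1, h⟩
    · exact ⟨j, i, h1, h.symm⟩
  refine ⟨j - i, by omega, ?_⟩
  rw [Ideal.Quotient.eq] at hij2
  have h1 : p.valuation K (algebraMap (𝓞 K) K (a ^ i - a ^ j)) ≤
      WithZero.exp (-(N : ℤ)) := by
    rw [HeightOneSpectrum.valuation_of_algebraMap, HeightOneSpectrum.intValuation_le_pow_iff_mem]
    exact hij2
  have h2 : algebraMap (𝓞 K) K (a ^ i - a ^ j) =
      (algebraMap (𝓞 K) K a) ^ i * (1 - (algebraMap (𝓞 K) K a) ^ (j - i)) := by
    rw [map_sub, map_pow, map_pow]
    have : j = i + (j - i) := by omega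
    nth_rewrite 1 [this]
    ring
  rw [h2, map_mul, map_pow, hva, one_pow, one_mul] at h1
  have h3 : p.valuation K (b ^ (j - i) - (algebraMap (𝓞 K) K a) ^ (j - i)) <
      p.valuation K c := by
    have hsum : ∀ s : ℕ, p.valuation K (∑ k ∈ Finset.range s,
        b ^ k * (algebraMap (𝓞 K) K a) ^ (s - 1 - k)) ≤ 1 := by
      intro s
      apply Valuation.map_sum_le
      intro k _
      rw [map_mul, map_pow, map_pow, hb, hva, one_pow, one_pow, one_mul]
    have hg := (Commute.all b (algebraMap (𝓞 K) K a)).geom_sum₂_mul (j - i)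
    rw [← hg, map_mul]
    have h4 : p.valuation K (b - algebraMap (𝓞 K) K a) < p.valuation K c := by
      rw [Valuation.map_sub_swap]
      exact lt_of_lt_of_le ha hγc
    calc _ ≤ 1 * p.valuation K (b - algebraMap (𝓞 K) K a) := by
          gcongr
          exact hsum _
      _ < p.valuation K c := by rwa [one_mul]
  have h5 : b ^ (j - i) - 1 = (b ^ (j - i) - (algebraMap (𝓞 K) K a) ^ (j - i)) +
      -(1 - (algebraMap (𝓞 K) K a) ^ (j - i)) := by ring
  rw [h5]
  refine lt_of_le_of_lt (Valuation.map_add _ _ _) (max_lt h3 ?_)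
  rw [Valuation.map_neg]
  exact lt_of_le_of_lt h1 hN1

end Pool.Agent.R331.SM
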