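import Mathlib
import Pool.Agent.H448.G.R_pool_sql_team_seeded_b0a926ef.R331.SM.Quasi

set_option autoImplicit false

namespace Pool.Agent.R331.SM

open Finset

/-- A complete normed field of archimedean type embeds isometrically in the complex numbers. -/
theorem arch_norm {C : Type*} [NormedField C] [CompleteSpace C] (hn : ∀ n : ℕ, ‖(n : C)‖ = n) :
    ∃ φ : C →+* ℂ, ∀ x, ‖φ x‖ = ‖x‖ := by
  have hc0 : CharZero C := charZero_of_inj_zero fun n hn0 => by
    have := hn n
    rw [hn0, norm_zero] at this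
    exact_mod_cast this.symm
  have hq : ∀ q : ℚ, ‖(q : C)‖ = |(q : ℝ)| := by
    intro q
    have h1 : (q : C) = (q.num : C) / (q.den : C) := (Rat.cast_def q)
    have h2 : ∀ z : ℤ, ‖(z : C)‖ = |(z : ℝ)| := by
      intro z
      rcases Int.natAbs_eq z with h | h
      · rw [h, Int.cast_natCast, hn, Int.cast_natCast, abs_of_nonneg (Nat.cast_nonneg _)]
      · rw [h, Int.cast_neg, Int.cast_natCast, norm_neg, hn, Int.cast_neg, Int.cast_natCast,
          abs_neg, abs_of_nonneg (Nat.cast_nonneg _)]
    rw [h1, norm_div, h2, hn, Rat.cast_def q, abs_div, Nat.abs_cast]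
  have hi : IsUniformInducing (Rat.castHom ℝ) := Rat.isUniformEmbedding_coe_real.isUniformInducing
  have hd : DenseRange (Rat.castHom ℝ) := Rat.isDenseEmbedding_coe_real.dense
  have hiso : Isometry (Rat.castHom C) := by
    apply Isometry.of_dist_eq
    intro x y
    rw [dist_eq_norm, ← map_sub]
    change ‖((x - y : ℚ) : C)‖ = _
    rw [hq, Rat.dist_eq]
    push_cast
    rfl
  let ext : ℝ →+* C := IsDenseInducing.extendRingHom hi hd hiso.uniformContinuous
  have hextc : Continuous ext := (uniformContinuous_uniformly_extend hi hd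
    hiso.uniformContinuous).continuous
  have hext : ∀ q : ℚ, ext (q : ℝ) = (q : C) := fun q => map_ratCast ext q
  have hnorm : ∀ r : ℝ, ‖ext r‖ = |r| := by
    intro r
    refine DenseRange.induction_on hd r ?_ ?_
    · exact isClosed_eq (hextc.norm) continuous_abs
    · intro q
      change ‖ext (q : ℝ)‖ = _
      rw [hext, hq]
      rfl
  let _ : Algebra ℝ C := ext.toAlgebra
  let _ : NormedAlgebra ℝ C :=
    { (inferInstance : Algebra ℝ C) with
      norm_smul_le := fun r x => by
        rw [Algebra.smul_def]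
        change ‖ext r * x‖ ≤ _
        rw [norm_mul, hnorm, Real.norm_eq_abs] }
  rcases NormedAlgebra.Real.nonempty_algEquiv_or C with he | he
  · obtain ⟨e⟩ := he
    refine ⟨(Complex.ofRealHom).comp (e : C →+* ℝ), fun x => ?_⟩
    change ‖((e x : ℝ) : ℂ)‖ = ‖x‖
    rw [Complex.norm_real]
    have h1 : x = ext (e x) := by
      have h2 : algebraMap ℝ C (e x) = e.symm (algebraMap ℝ ℝ (e x)) := (e.symm.commutes _).symm
      have h3 : e.symm (algebraMap ℝ ℝ (e x)) = x := by
        rw [Algebra.algebraMap_self, RingHom.id_apply, AlgEquiv.symm_apply_apply]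
      rw [h3] at h2
      exact h2.symm
    conv_rhs => rw [h1]
    rw [hnorm, Real.norm_eq_abs]
  · obtain ⟨e⟩ := he
    refine ⟨(e : C →+* ℂ), fun x => ?_⟩
    -- the linear map is bounded
    let T : ℂ →L[ℝ] C := LinearMap.toContinuousLinearMap (e.symm.toLinearMap)
    have hT : ∀ z : ℂ, ‖e.symm z‖ ≤ ‖T‖ * ‖z‖ := fun z => T.le_opNorm z
    have hle : ∀ z : ℂ, ‖e.symm z‖ ≤ ‖z‖ := by
      intro z
      by_contra hlt
      push Not at hlt
      have hz0 : z ≠ 0 := by rintro rfl; simp at hlt
      have hzn : 0 < ‖z‖ := norm_pos_iff.2 hz0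
      obtain ⟨n, hn⟩ := pow_unbounded_of_one_lt ‖T‖ ((one_lt_div hzn).2 hlt)
      rw [div_pow, lt_div_iff₀ (pow_pos hzn _), ← norm_pow, ← norm_pow, ← map_pow] at hn
      exact absurd (hT (z ^ n)) (not_le.2 hn)
    change ‖e x‖ = ‖x‖
    apply le_antisymm
    · by_cases hx : x = 0
      · subst hx; simp
      · have h1 := hle (e x)⁻¹
        rw [map_inv₀, AlgEquiv.symm_apply_apply, norm_inv, norm_inv] at h1
        have h2 : 0 < ‖x‖ := norm_pos_iff.2 hx
        have h3 : 0 < ‖e x‖ := norm_pos_iff.2 (by simpa using hx)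
        exact (inv_le_inv₀ h2 h3).1 h1
    · have := hle (e x)
      rwa [AlgEquiv.symm_apply_apply] at this

/-- Archimedean absolute values of a field embed it in the complex numbers. -/
theorem arch_abs {K : Type} [Field K] (μ : AbsoluteValue K ℝ) (hμ : ∀ n : ℕ, μ n = n) :
    ∃ φ : K →+* ℂ, ∀ x, ‖φ x‖ = μ x := by
  have hn : ∀ n : ℕ, ‖(n : μ.Completion)‖ = n := by
    intro n
    have h1 : (n : μ.Completion) = ((n : WithAbs μ) : μ.Completion) := by
      exact (map_natCast (UniformSpace.Completion.coeRingHom (α := WithAbs μ)) n).symm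
    rw [h1, UniformSpace.Completion.norm_coe]
    exact hμ n
  obtain ⟨φ, hφ⟩ := arch_norm hn
  refine ⟨φ.comp ((UniformSpace.Completion.coeRingHom (α := WithAbs μ)).comp
    (WithAbs.equiv μ).symm.toRingHom), fun x => ?_⟩
  rw [RingHom.comp_apply, hφ]
  change ‖(((WithAbs.equiv μ).symm x : WithAbs μ) : μ.Completion)‖ = _
  rw [UniformSpace.Completion.norm_coe]
  rfl

/-- The unbounded case. -/
theorem quasi_unbdd {K : Type} [Field K] [NumberField K] {ν : K →*₀ ℝ} {A : ℝ} (h : Quasi ν A)
    (hB : ∃ n : ℕ, 1 < ν n) :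
    ∃ (v : NumberField.InfinitePlace K) (t : ℝ), 0 < t ∧ ∀ z : K, ν z = v z ^ t := by
  -- a small power satisfies the triangle inequality
  obtain ⟨s, hs, hs2⟩ : ∃ s : ℝ, 0 < s ∧ A ^ s ≤ 2 := by
    have hA : 0 < A := lt_of_lt_of_le one_pos h.one_le
    rcases eq_or_lt_of_le h.one_le with h1 | h1
    · exact ⟨1, one_pos, by rw [← h1]; simp⟩
    · refine ⟨Real.log 2 / Real.log A, div_pos (Real.log_pos (by norm_num)) (Real.log_pos h1), ?_⟩
      rw [Real.rpow_def_of_pos hA, mul_div_cancel₀ _ (Real.log_pos h1).ne',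
        Real.exp_log (by norm_num)]
  set μ := qpow ν h.nonneg s hs with hμdef
  have hμQ : Quasi μ 2 :=
    { one_le := by norm_num
      nonneg := (h.qpow s hs).nonneg
      add_le := fun x y => ((h.qpow s hs).add_le x y).trans
        (mul_le_mul_of_nonneg_right hs2 (le_max_of_le_left ((h.qpow s hs).nonneg x))) }
  have hneg : ∀ x, μ (-x) = μ x := by
    intro x
    have h1 : μ (-1) = 1 := by
      have h2 : μ (-1) * μ (-1) = 1 := by rw [← map_mul]; simp
      have h3 := hμQ.nonneg (-1)
      nlinarith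
    rw [← neg_one_mul, map_mul, h1, one_mul]
  have hnat : ∀ n : ℕ, μ n ≤ 2 * n := by
    intro n
    rcases Nat.eq_zero_or_pos n with rfl | hn
    · simp
    · obtain ⟨k, hk1, hk2⟩ : ∃ k, n ≤ 2 ^ k ∧ 2 ^ k ≤ 2 * n := by
        refine ⟨Nat.clog 2 n, Nat.le_pow_clog (by norm_num) n, ?_⟩
        rcases Nat.lt_or_ge 1 n with h1 | h1
        · have := Nat.pow_pred_clog_lt_self (b := 2) (by norm_num) h1
          have h3 : 0 < Nat.clog 2 n := Nat.clog_pos (by norm_num) h1
          obtain ⟨j, hj⟩ := Nat.exists_eq_succ_of_ne_zero h3.ne'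
          rw [hj] at this ⊢
          rw [Nat.pred_succ] at this
          rw [pow_succ]
          omega
        · have : n = 1 := by omega
          subst this
          simp
      have h1 : (n : K) = ∑ i ∈ range (2 ^ k), (if i < n then (1 : K) else 0) := by
        rw [Finset.sum_ite, Finset.sum_const_zero, add_zero, Finset.sum_const, nsmul_eq_mul,
          mul_one]
        congr 1
        have : (range (2 ^ k)).filter (fun i => i < n) = range n := by
          ext i
          simp only [mem_filter, mem_range]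
          omega
        rw [this, card_range]
      rw [h1]
      refine (hμQ.sum_le k _ 1 ?_).trans ?_
      · intro i _
        split_ifs
        · rw [map_one]
        · rw [map_zero]; exact zero_le_one
      · rw [mul_one]
        exact_mod_cast hk2
  have htri := hμQ.triangle 2 hnat
  let μa : AbsoluteValue K ℝ :=
    { toFun := μ
      map_mul' := map_mul μ
      nonneg' := hμQ.nonneg
      eq_zero' := fun x => map_eq_zero μ
      add_le' := htri }
  -- restriction to the rationals
  let μq : AbsoluteValue ℚ ℝ := μa.comp (algebraMap ℚ K).injective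
  have hunb : ¬ ∀ n : ℕ, μq n ≤ 1 := by
    obtain ⟨n, hn⟩ := hB
    intro hall
    have h1 := hall n
    have h2 : μq n = ν n ^ s := by
      change μ (algebraMap ℚ K (n : ℚ)) = _
      rw [map_natCast]
      rfl
    rw [h2] at h1
    have h3 := Real.one_lt_rpow hn hs
    linarith
  have heq := Rat.AbsoluteValue.equiv_real_of_unbounded hunb
  rw [AbsoluteValue.isEquiv_iff_exists_rpow_eq] at heq
  obtain ⟨c, hc, hc2⟩ := heq
  have hcn : ∀ n : ℕ, μ n ^ c = n := by
    intro n
    have h1 := congrFun hc2 (n : ℚ)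
    have h2 : μq n = μ n := by
      change μ (algebraMap ℚ K (n : ℚ)) = _
      rw [map_natCast]
    simp only [h2, Rat.AbsoluteValue.real_eq_abs] at h1
    rw [h1]
    simp
  -- renormalise
  set κ := qpow μ hμQ.nonneg c hc with hκdef
  have hκQ := hμQ.qpow c hc
  have hκn : ∀ n : ℕ, κ n = n := hcn
  have hκtri := hκQ.triangle 1 (fun n => by rw [one_mul]; exact (hκn n).le)
  let κa : AbsoluteValue K ℝ :=
    { toFun := κ
      map_mul' := map_mul κ
      nonneg' := hκQ.nonneg
      eq_zero' := fun x => map_eq_zero κ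
      add_le' := hκtri }
  obtain ⟨φ, hφ⟩ := arch_abs κa hκn
  refine ⟨NumberField.InfinitePlace.mk φ, (s * c)⁻¹, by positivity, fun z => ?_⟩
  rw [NumberField.InfinitePlace.apply, hφ]
  change ν z = ((ν z ^ s) ^ c) ^ (s * c)⁻¹
  rw [← Real.rpow_mul (h.nonneg z), ← Real.rpow_mul (h.nonneg z),
    mul_inv_cancel₀ (by positivity), Real.rpow_one]

end Pool.Agent.R331.SM
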