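import Mathlib
import Pool.Agent.H448.G.R_pool_sql_team_seeded_b0a926ef.R331.SM.Arch
import Pool.Agent.H448.G.R_pool_sql_team_seeded_b0a926ef.R331.SM.Holder

set_option autoImplicit false

namespace Pool.Agent.R331.SM

open IsDedekindDomain NumberField Finset

section act

variable {K : Type} [Field K] {N : Type*} [AddCommGroup N] [LinearOrder N] [IsOrderedAddMonoid N]

/-- A multiplicative action of a field on an ordered group. -/
structure Act (A : K → N →+ N) : Prop where
  zero : ∀ y, A 0 y = 0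
  one : ∀ y, A 1 y = y
  mul : ∀ x y z, A (x * y) z = A x (A y z)
  pos : ∀ x, x ≠ 0 → ∀ y, 0 < y → 0 < A x y

variable {A : K → N →+ N}

lemma Act.lt (hA : Act A) {x : K} (hx : x ≠ 0) {y z : N} (h : y < z) : A x y < A x z := by
  have := hA.pos x hx (z - y) (sub_pos.2 h)
  rw [map_sub] at this
  exact sub_pos.1 this

lemma Act.le (hA : Act A) (x : K) {y z : N} (h : y ≤ z) : A x y ≤ A x z := by
  by_cases hx : x = 0
  · subst hx; rw [hA.zero, hA.zero]
  · rcases eq_or_lt_of_le h with rfl | h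
    · exact le_refl _
    · exact (hA.lt hx h).le

lemma Act.nonneg (hA : Act A) (x : K) {y : N} (h : 0 ≤ y) : 0 ≤ A x y := by
  have := hA.le x h
  rwa [map_zero] at this

lemma Act.neg_one (hA : Act A) (y : N) : A (-1) y = y := by
  have h1 : A (-1) (A (-1) y) = y := by rw [← hA.mul]; simp [hA.one]
  have hne : (-1 : K) ≠ 0 := by simp
  rcases lt_trichotomy (A (-1) y) y with h | h | h
  · have := hA.lt hne h
    rw [h1] at this
    exact absurd this (not_lt.2 h.le)
  · exact h
  · have := hA.lt hne h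
    rw [h1] at this
    exact absurd this (not_lt.2 h.le)

lemma Act.neg (hA : Act A) (x : K) (y : N) : A (-x) y = A x y := by
  rw [← neg_one_mul, hA.mul, hA.neg_one]

lemma Act.inv_cancel (hA : Act A) {x : K} (hx : x ≠ 0) (y : N) : A x⁻¹ (A x y) = y := by
  rw [← hA.mul, inv_mul_cancel₀ hx, hA.one]

lemma Act.cancel_inv (hA : Act A) {x : K} (hx : x ≠ 0) (y : N) : A x (A x⁻¹ y) = y := by
  rw [← hA.mul, mul_inv_cancel₀ hx, hA.one]

end act

section data

variable {K : Type} [Field K] {N : Type*} [AddCommGroup N] [LinearOrder N] [IsOrderedAddMonoid N]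
  {J : Type} [Fintype J]

/-- The data of a strictly positive functional. -/
structure Data (A : K → N →+ N) (b : J → K) (u : J → N) : Prop where
  act : Act A
  upos : ∀ j, 0 < u j
  star : ∀ z : J → K, z ≠ 0 → A (∑ j, b j * z j) (∑ j, u j) < ∑ j, A (z j) (u j)
  two : ∃ k l, k ≠ l ∧ b k ≠ 0 ∧ b l ≠ 0

variable {A : K → N →+ N} {b : J → K} {u : J → N}

lemma Data.star_one (D : Data A b u) (j : J) (t : K) (ht : t ≠ 0) :
    A (b j * t) (∑ j, u j) < A t (u j) := by
  classical
  have h := D.star (Pi.single j t) (by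
    intro h0
    apply ht
    have := congrFun h0 j
    rwa [Pi.single_eq_same] at this)
  have h1 : ∑ i, b i * (Pi.single j t : J → K) i = b j * t := by
    rw [Finset.sum_eq_single j]
    · rw [Pi.single_eq_same]
    · intro i _ hi
      rw [Pi.single_eq_of_ne hi, mul_zero]
    · intro h; exact absurd (mem_univ _) h
  have h2 : ∑ i, A ((Pi.single j t : J → K) i) (u i) = A t (u j) := by
    rw [Finset.sum_eq_single j]
    · rw [Pi.single_eq_same]
    · intro i _ hi
      rw [Pi.single_eq_of_ne hi, D.act.zero]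
    · intro h; exact absurd (mem_univ _) h
  rwa [h1, h2] at h

lemma Data.star_two (D : Data A b u) (k l : J) (hkl : k ≠ l) (y z : K) (hyz : ¬ (y = 0 ∧ z = 0)) :
    A (b k * y + b l * z) (∑ j, u j) < A y (u k) + A z (u l) := by
  classical
  have hk : (Pi.single k y + Pi.single l z : J → K) k = y := by
    rw [Pi.add_apply, Pi.single_eq_same, Pi.single_eq_of_ne hkl, add_zero]
  have hl : (Pi.single k y + Pi.single l z : J → K) l = z := by
    rw [Pi.add_apply, Pi.single_eq_same, Pi.single_eq_of_ne hkl.symm, zero_add]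
  have h := D.star (Pi.single k y + Pi.single l z) (by
    intro h0
    apply hyz
    rw [h0] at hk hl
    exact ⟨hk.symm, hl.symm⟩)
  have h1 : ∑ i, b i * (Pi.single k y + Pi.single l z : J → K) i = b k * y + b l * z := by
    rw [← Finset.sum_subset (Finset.subset_univ ({k, l} : Finset J)), Finset.sum_pair hkl, hk, hl]
    intro i _ hi
    rw [Finset.mem_insert, Finset.mem_singleton, not_or] at hi
    rw [Pi.add_apply, Pi.single_eq_of_ne hi.1, Pi.single_eq_of_ne hi.2, add_zero, mul_zero]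
  have h2 : ∑ i, A ((Pi.single k y + Pi.single l z : J → K) i) (u i) = A y (u k) + A z (u l) := by
    rw [← Finset.sum_subset (Finset.subset_univ ({k, l} : Finset J)), Finset.sum_pair hkl, hk, hl]
    intro i _ hi
    rw [Finset.mem_insert, Finset.mem_singleton, not_or] at hi
    rw [Pi.add_apply, Pi.single_eq_of_ne hi.1, Pi.single_eq_of_ne hi.2, add_zero, D.act.zero]
  rwa [h1, h2] at h

lemma Data.ug (D : Data A b u) (j : J) : u j ≤ ∑ j, u j :=
  Finset.single_le_sum (f := u) (fun i _ => (D.upos i).le) (mem_univ j)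

lemma Data.uug (D : Data A b u) (k l : J) (hkl : k ≠ l) : u k + u l ≤ ∑ j, u j := by
  classical
  rw [← Finset.sum_pair hkl]
  exact Finset.sum_le_sum_of_subset_of_nonneg (Finset.subset_univ _)
    (fun i _ _ => (D.upos i).le)

lemma Data.gpos (D : Data A b u) : 0 < ∑ j, u j := by
  obtain ⟨k, -⟩ := D.two
  exact lt_of_lt_of_le (D.upos k) (D.ug k)

lemma Data.bu (D : Data A b u) (j : J) : A (b j) (∑ j, u j) < u j := by
  have := D.star_one j 1 one_ne_zero
  rwa [mul_one, D.act.one] at this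

lemma Data.bg (D : Data A b u) (j : J) : A (b j) (∑ j, u j) < ∑ j, u j :=
  lt_of_lt_of_le (D.bu j) (D.ug j)

lemma Data.ginv (D : Data A b u) (x : K) (hx : x ≠ 0) (h : A x (∑ j, u j) < ∑ j, u j) :
    ∑ j, u j < A x⁻¹ (∑ j, u j) := by
  have := D.act.lt (inv_ne_zero hx) h
  rwa [D.act.inv_cancel hx] at this

lemma Data.exists_c (D : Data A b u) : ∃ c : K, c ≠ 0 ∧
    (∀ j, b j ≠ 0 → A (b j)⁻¹ (∑ j, u j) ≤ A c (∑ j, u j)) ∧
    (∑ j, u j < A c (∑ j, u j)) ∧
    ∀ y z : K, ¬ (y = 0 ∧ z = 0) →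
      A (y + z) (∑ j, u j) < A c (A y (∑ j, u j) + A z (∑ j, u j)) := by
  classical
  obtain ⟨k, l, hkl, hk, hl⟩ := D.two
  obtain ⟨j, hj, hmax⟩ := Finset.exists_max_image (univ.filter fun j => b j ≠ 0)
    (fun j => A (b j)⁻¹ (∑ j, u j)) ⟨k, by simpa using hk⟩
  have hj0 : b j ≠ 0 := by simpa using hj
  have hmax' : ∀ i, b i ≠ 0 → A (b i)⁻¹ (∑ j, u j) ≤ A (b j)⁻¹ (∑ j, u j) := by
    intro i hi
    exact hmax i (by simpa using hi)
  refine ⟨(b j)⁻¹, inv_ne_zero hj0, hmax', D.ginv _ hj0 (D.bg j), ?_⟩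
  intro y z hyz
  have hyz' : ¬ (y / b k = 0 ∧ z / b l = 0) := by
    rintro ⟨h1, h2⟩
    apply hyz
    rw [div_eq_zero_iff] at h1 h2
    exact ⟨h1.resolve_right hk, h2.resolve_right hl⟩
  have h := D.star_two k l hkl (y / b k) (z / b l) hyz'
  rw [mul_div_cancel₀ _ hk, mul_div_cancel₀ _ hl] at h
  refine lt_of_lt_of_le h ?_
  have key : ∀ (i : J) (w : K), b i ≠ 0 → A (w / b i) (u i) ≤
      A (b j)⁻¹ (A w (∑ j, u j)) := by
    intro i w hi
    calc A (w / b i) (u i) ≤ A (w / b i) (∑ j, u j) := D.act.le _ (D.ug i)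
      _ = A w (A (b i)⁻¹ (∑ j, u j)) := by rw [div_eq_mul_inv, D.act.mul]
      _ ≤ A w (A (b j)⁻¹ (∑ j, u j)) := D.act.le _ (hmax' i hi)
      _ = A (b j)⁻¹ (A w (∑ j, u j)) := by rw [← D.act.mul, mul_comm, D.act.mul]
  rw [map_add]
  exact add_le_add (key k y hk) (key l z hl)

/-- A local contradiction. -/
lemma Data.dp [NumberField K] (D : Data A b u) (p : HeightOneSpectrum (𝓞 K)) (k l : J)
    (hkl : k ≠ l) (hk : p.valuation K (b k) = 1) (hl0 : b l ≠ 0)
    (hz : ∀ z, p.valuation K z < 1 → A z (u l) < u l) : False := by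
  obtain ⟨e, he1, he⟩ := exists_exp p (b k) (b l) hk hl0
  have hbk : b k ≠ 0 := by
    intro h0; rw [h0, map_zero] at hk; exact zero_ne_one hk
  set z := ((b k ^ (e - 1))⁻¹ - b k) / b l with hzdef
  have hbke : b k ^ (e - 1) ≠ 0 := pow_ne_zero _ hbk
  have h1 : (b k ^ (e - 1))⁻¹ - b k = (b k ^ (e - 1))⁻¹ * (1 - b k ^ e) := by
    have : b k ^ e = b k ^ (e - 1) * b k := by rw [← pow_succ, Nat.sub_add_cancel he1]
    rw [this, mul_sub, mul_one, ← mul_assoc, inv_mul_cancel₀ hbke, one_mul]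
  have hvz : p.valuation K z < 1 := by
    rw [hzdef, h1, map_div₀, map_mul, map_inv₀, map_pow, hk, one_pow, inv_one, one_mul,
      Valuation.map_sub_swap]
    exact (div_lt_one₀ ((Valuation.pos_iff _).2 hl0)).2 he
  have h2 := D.star_two k l hkl 1 z (fun h => one_ne_zero h.1)
  have h3 : b k * 1 + b l * z = (b k ^ (e - 1))⁻¹ := by
    rw [hzdef, mul_div_cancel₀ _ hl0]; ring
  rw [h3, D.act.one] at h2
  have h4 : A ((b k ^ (e - 1))⁻¹) (∑ j, u j) < ∑ j, u j := by
    refine lt_of_lt_of_le (h2.trans ?_) (D.uug k l hkl)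
    exact add_lt_add_right (hz z hvz) _
  have h5 : ∀ m : ℕ, A (b k ^ m) (∑ j, u j) ≤ ∑ j, u j := by
    intro m
    induction m with
    | zero => rw [pow_zero, D.act.one]
    | succ m ih =>
      rw [pow_succ, D.act.mul]
      exact (D.act.le _ (D.bg k).le).trans ih
  have h6 := D.act.le ((b k ^ (e - 1))⁻¹) (h5 (e - 1))
  rw [D.act.inv_cancel hbke] at h6
  exact absurd h4 (not_lt.2 h6)

end data

end Pool.Agent.R331.SM
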