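import Mathlib
import Pool.Agent.H448.G.R_pool_sql_team_seeded_b0a926ef.R331.SM.Contra

set_option autoImplicit false

namespace Pool.Agent.R331.SM

open IsDedekindDomain NumberField Finset

variable {K : Type} [Field K] {N : Type*} [AddCommGroup N] [LinearOrder N] [IsOrderedAddMonoid N]
  {J : Type} [Fintype J] {A : K → N →+ N} {b : J → K} {u : J → N}

lemma pow_mono' (hA : Act A) (g : N) (c : K) (hgc : g ≤ A c g) {m m' : ℕ} (h : m ≤ m') :
    A (c ^ m) g ≤ A (c ^ m') g := by
  obtain ⟨k, rfl⟩ := Nat.exists_eq_add_of_le h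
  clear h
  induction k with
  | zero => exact le_refl _
  | succ k ih =>
    refine ih.trans ?_
    rw [← add_assoc, pow_succ, hA.mul]
    exact hA.le _ hgc

/-- Everything is bounded at the large scale. -/
lemma Data.bounded [NumberField K] (D : Data A b u) (c : K) (hc0 : c ≠ 0)
    (hcmax : ∀ j, b j ≠ 0 → A (b j)⁻¹ (∑ j, u j) ≤ A c (∑ j, u j))
    (hgc : ∑ j, u j < A c (∑ j, u j))
    (hadd : ∀ y z : K, ¬ (y = 0 ∧ z = 0) →
      A (y + z) (∑ j, u j) < A c (A y (∑ j, u j) + A z (∑ j, u j))) (z : K) :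
    ∃ C m : ℕ, A z (∑ j, u j) ≤ C • A (c ^ m) (∑ j, u j) := by
  set g := ∑ j, u j with hg
  have hA := D.act
  let O : ValuationSubring K :=
    { carrier := {z | ∃ C m : ℕ, A z g ≤ C • A (c ^ m) g}
      mul_mem' := by
        rintro x y ⟨C, m, h1⟩ ⟨C', m', h2⟩
        refine ⟨C' * C, m' + m, ?_⟩
        calc A (x * y) g = A x (A y g) := hA.mul _ _ _
          _ ≤ A x (C' • A (c ^ m') g) := hA.le _ h2
          _ = C' • A (c ^ m') (A x g) := by
              rw [map_nsmul, ← hA.mul, ← hA.mul, mul_comm]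
          _ ≤ C' • A (c ^ m') (C • A (c ^ m) g) := nsmul_le_nsmul_right (hA.le _ h1) C'
          _ = (C' * C) • A (c ^ (m' + m)) g := by
              rw [map_nsmul, ← hA.mul, ← pow_add, smul_smul]
      one_mem' := ⟨1, 0, by rw [pow_zero, one_smul]⟩
      add_mem' := by
        rintro x y ⟨C, m, h1⟩ ⟨C', m', h2⟩
        by_cases hxy : x = 0 ∧ y = 0
        · rw [hxy.1, hxy.2, add_zero]
          exact ⟨0, 0, by rw [hA.zero, zero_smul]⟩
        refine ⟨C + C', m + m' + 1, ?_⟩
        have h3 : A (c ^ m) g ≤ A (c ^ (m + m')) g := pow_mono' hA g c hgc.le (by omega)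
        have h4 : A (c ^ m') g ≤ A (c ^ (m + m')) g := pow_mono' hA g c hgc.le (by omega)
        calc A (x + y) g ≤ A c (A x g + A y g) := (hadd x y hxy).le
          _ ≤ A c (C • A (c ^ (m + m')) g + C' • A (c ^ (m + m')) g) := by
              apply hA.le
              exact add_le_add (h1.trans (nsmul_le_nsmul_right h3 C))
                (h2.trans (nsmul_le_nsmul_right h4 C'))
          _ = (C + C') • A (c ^ (m + m' + 1)) g := by
              rw [← add_smul, map_nsmul, ← hA.mul, pow_succ, mul_comm]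
      zero_mem' := ⟨0, 0, by rw [hA.zero, zero_smul]⟩
      neg_mem' := by
        rintro x ⟨C, m, h1⟩
        exact ⟨C, m, by rwa [hA.neg]⟩
      mem_or_inv_mem' := by
        intro x
        by_cases hx : x = 0
        · left
          rw [hx]
          exact ⟨0, 0, by rw [hA.zero, zero_smul]⟩
        rcases le_total (A x g) g with h | h
        · left
          exact ⟨1, 0, by rwa [pow_zero, one_smul, hA.one]⟩
        · right
          refine ⟨1, 0, ?_⟩
          rw [pow_zero, one_smul, hA.one]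
          have := hA.le x⁻¹ h
          rwa [hA.inv_cancel hx] at this }
  have hmemO : ∀ z, z ∈ O ↔ ∃ C m : ℕ, A z g ≤ C • A (c ^ m) g := fun z => Iff.rfl
  rw [← hmemO]
  by_cases hO : O = ⊤
  · rw [hO]; trivial
  exfalso
  obtain ⟨p, hp⟩ := na O hO
  have hpb : ∀ j, b j ≠ 0 → p.valuation K (b j) = 1 := by
    intro j hj
    apply le_antisymm
    · rw [← hp]
      exact ⟨1, 0, by rw [pow_zero, one_smul, hA.one]; exact (D.bg j).le⟩
    · have h1 : (b j)⁻¹ ∈ O := ⟨1, 1, by rw [pow_one, one_smul]; exact hcmax j hj⟩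
      rw [hp, map_inv₀] at h1
      by_contra hlt
      push Not at hlt
      have h2 : 0 < p.valuation K (b j) := (Valuation.pos_iff _).2 hj
      exact absurd ((one_lt_inv₀ h2).2 hlt) (not_lt.2 h1)
  obtain ⟨k, l, hkl, hk, hl⟩ := D.two
  refine D.dp p k l hkl (hpb k hk) hl ?_
  intro z hz
  by_contra hlt
  push Not at hlt
  have hz0 : z ≠ 0 := by
    rintro rfl
    rw [hA.zero] at hlt
    exact absurd (D.upos l) (not_lt.2 hlt)
  have h1 : z⁻¹ * b l ∈ O := by
    refine ⟨1, 0, ?_⟩
    rw [pow_zero, one_smul, hA.one, hA.mul]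
    calc A z⁻¹ (A (b l) g) ≤ A z⁻¹ (A z (u l)) := hA.le _ ((D.bu l).le.trans hlt)
      _ = u l := hA.inv_cancel hz0 _
      _ ≤ g := D.ug l
  rw [hp, map_mul, hpb l hl, mul_one, map_inv₀] at h1
  have h2 : 0 < p.valuation K z := (Valuation.pos_iff _).2 hz0
  exact absurd ((one_lt_inv₀ h2).2 hz) (not_lt.2 h1)

theorem holder_unique {G : Type*} [AddCommGroup G] (r : G → G → Prop)
    (total : ∀ x y, r x y ∨ r y x) (c : G) (φ φ' : G →+ ℝ)
    (hφ : ∀ x y, r x y → φ x ≤ φ y) (hφ' : ∀ x y, r x y → φ' x ≤ φ' y) (hc : φ c = 1) (x : G) :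
    φ' x = φ' c * φ x := by
  have h0c : 0 ≤ φ' c := by
    rcases total 0 c with h | h
    · have := hφ' _ _ h
      rwa [map_zero] at this
    · have := hφ _ _ h
      rw [map_zero, hc] at this
      norm_num at this
  have key : ∀ x : G, φ' c * φ x ≤ φ' x := by
    intro x
    by_contra hlt
    push Not at hlt
    obtain ⟨k, hk⟩ := exists_nat_gt ((φ' c) / (φ' c * φ x - φ' x))
    rw [div_lt_iff₀ (sub_pos.2 hlt)] at hk
    set m : ℤ := ⌈(k : ℝ) * φ x⌉ - 1 with hm
    have hm1 : (m : ℝ) < k * φ x := by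
      rw [hm]
      push_cast
      have := Int.ceil_lt_add_one ((k : ℝ) * φ x)
      linarith
    have hm2 : (k : ℝ) * φ x - 1 ≤ m := by
      rw [hm]
      push_cast
      have := Int.le_ceil ((k : ℝ) * φ x)
      linarith
    have h1 : r 0 (k • x - m • c) := by
      rcases total 0 (k • x - m • c) with h | h
      · exact h
      · exfalso
        have := hφ _ _ h
        rw [map_sub, map_nsmul, map_zsmul, hc, map_zero, nsmul_eq_mul, zsmul_eq_mul,
          mul_one] at this
        linarith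
    have h2 := hφ' _ _ h1
    rw [map_sub, map_nsmul, map_zsmul, map_zero, nsmul_eq_mul, zsmul_eq_mul] at h2
    have h3 : (k * φ x - 1) * φ' c ≤ m * φ' c := mul_le_mul_of_nonneg_right hm2 h0c
    nlinarith
  apply le_antisymm _ (key x)
  have := key (-x)
  rw [map_neg, map_neg] at this
  linarith

/-- Rational approximation from below. -/
lemma exists_rat_below (x : J → ℝ) (hx : ∀ j, 0 ≤ x j) (h : 1 < ∑ j, x j) :
    ∃ y : J → ℚ, (∀ j, 0 ≤ y j ∧ (y j : ℝ) ≤ x j) ∧ 1 < ∑ j, y j := by
  classical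
  have hne : (univ : Finset J).Nonempty := by
    by_contra h0
    rw [Finset.not_nonempty_iff_eq_empty] at h0
    rw [h0, Finset.sum_empty] at h
    norm_num at h
  have hcard : (0 : ℝ) < (univ : Finset J).card := by exact_mod_cast hne.card_pos
  set δ := (∑ j, x j - 1) / (univ : Finset J).card with hδ
  have hδ0 : 0 < δ := div_pos (by linarith) hcard
  have hex : ∀ j, ∃ q : ℚ, 0 ≤ q ∧ (q : ℝ) ≤ x j ∧ x j - δ < q := by
    intro j
    rcases eq_or_lt_of_le (hx j) with h0 | h0
    · exact ⟨0, le_refl _, by rw [← h0]; simp, by rw [← h0]; simpa using hδ0⟩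
    · obtain ⟨q, hq1, hq2⟩ := exists_rat_btwn (show max 0 (x j - δ) < x j by
        apply max_lt h0; linarith)
      refine ⟨q, ?_, hq2.le, lt_of_le_of_lt (le_max_right _ _) hq1⟩
      have : (0 : ℝ) < q := lt_of_le_of_lt (le_max_left _ _) hq1
      exact_mod_cast this.le
  choose y hy1 hy2 hy3 using hex
  refine ⟨y, fun j => ⟨hy1 j, hy2 j⟩, ?_⟩
  have h1 : ∑ j, (x j - δ) < ∑ j, (y j : ℝ) := Finset.sum_lt_sum_of_nonempty hne
    (fun j _ => hy3 j)
  rw [Finset.sum_sub_distrib, Finset.sum_const, nsmul_eq_mul, hδ,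
    mul_div_cancel₀ _ hcard.ne'] at h1
  have h2 : (1 : ℝ) < ((∑ j, y j : ℚ) : ℝ) := by push_cast; linarith
  exact_mod_cast h2

lemma place_rat {K : Type} [Field K] [NumberField K] (v : InfinitePlace K) (q : ℚ) (hq : 0 ≤ q) :
    v (q : K) = q := by
  rw [← InfinitePlace.norm_embedding_eq, map_ratCast, Complex.norm_ratCast, abs_of_nonneg]
  exact_mod_cast hq

/-- The archimedean test vector. -/
lemma arch_test [NumberField K] (v : InfinitePlace K) (t : ℝ) (ht : 0 < t) (ν : K → ℝ)
    (hν : ∀ z, ν z = v z ^ t) (b : J → K) (harch : 1 < ∑ j, v (b j)) :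
    ∃ z : J → K, (∀ j, ν (z j) ≤ 1) ∧ 1 < ν (∑ j, b j * z j) := by
  obtain ⟨y, hy, hy1⟩ := exists_rat_below (fun j => v (b j)) (fun j => apply_nonneg v _) harch
  refine ⟨fun j => (y j : K) / b j, ?_, ?_⟩
  · intro j
    rw [hν]
    apply Real.rpow_le_one (apply_nonneg v _) _ ht.le
    rw [map_div₀, place_rat v _ (hy j).1]
    by_cases hb : b j = 0
    · rw [hb, map_zero, div_zero]; exact zero_le_one
    · exact (div_le_one₀ (InfinitePlace.pos_iff.2 hb)).2 (hy j).2
  · have h1 : ∑ j, b j * ((y j : K) / b j) = ((∑ j, y j : ℚ) : K) := by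
      rw [Rat.cast_sum]
      apply Finset.sum_congr rfl
      intro j _
      by_cases hb : b j = 0
      · have h2 := (hy j).2
        rw [hb, map_zero] at h2
        have h3 : (y j : ℝ) ≤ 0 := h2
        have h4 : y j ≤ 0 := by exact_mod_cast h3
        have h5 : y j = 0 := le_antisymm h4 (hy j).1
        rw [h5, hb]; simp
      · rw [mul_div_cancel₀ _ hb]
    rw [h1, hν, place_rat v _ (by linarith)]
    apply Real.one_lt_rpow _ ht
    exact_mod_cast hy1

end Pool.Agent.R331.SM
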