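import Mathlib
import Pool.Agent.H448.G.R_pool_sql_team_seeded_b0a926ef.R331.SM.Contra2

set_option autoImplicit false

namespace Pool.Agent.R331.SM

open IsDedekindDomain NumberField Finset

variable {K : Type} [Field K] {N : Type*} [AddCommGroup N] [LinearOrder N] [IsOrderedAddMonoid N]
  {J : Type} [Fintype J] {A : K → N →+ N} {b : J → K} {u : J → N}

lemma Quasi.pos {ν : K →*₀ ℝ} {A0 : ℝ} (hQ : Quasi ν A0) {z : K} (hz : z ≠ 0) : 0 < ν z := by
  refine lt_of_le_of_ne (hQ.nonneg z) fun h => hz ?_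
  exact (map_eq_zero ν).1 h.symm

lemma other_index (b : J → K) (two : ∃ k l, k ≠ l ∧ b k ≠ 0 ∧ b l ≠ 0) (j : J) :
    ∃ l, j ≠ l ∧ b l ≠ 0 := by
  obtain ⟨k, l, hkl, hk, hl⟩ := two
  by_cases h : j = k
  · subst h; exact ⟨l, hkl, hl⟩
  · exact ⟨k, h, hk⟩

/-- The contradiction in the finite case. -/
lemma final_a [NumberField K] {χ : K →*₀ ℝ} {A0 : ℝ} (hQ : Quasi χ A0) (c : J → ℝ)
    (hc0 : ∀ j, 0 ≤ c j) (hsum : ∑ j, c j = 1)
    (hstar : ∀ z : J → K, z ≠ 0 → χ (∑ j, b j * z j) ≤ ∑ j, c j * χ (z j))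
    (hbc : ∀ j, χ (b j) ≤ c j)
    (two : ∃ k l, k ≠ l ∧ b k ≠ 0 ∧ b l ≠ 0)
    (harch : ∀ v : InfinitePlace K, 1 < ∑ j, v (b j))
    (hnon : ∀ p : HeightOneSpectrum (𝓞 K), ∃ j, 1 ≤ p.valuation K (b j)) : False := by
  classical
  have htwo : ∀ k l, k ≠ l → c k + c l ≤ 1 := by
    intro k l hkl
    rw [← hsum, ← Finset.sum_pair hkl]
    exact Finset.sum_le_sum_of_subset_of_nonneg (Finset.subset_univ _) (fun i _ _ => hc0 i)
  by_cases hB : ∃ n : ℕ, 1 < χ n
  · obtain ⟨v, t, ht, hv⟩ := quasi_unbdd hQ hB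
    obtain ⟨z, hz, hz1⟩ := arch_test v t ht χ hv b (harch v)
    have hz0 : z ≠ 0 := by
      rintro rfl
      simp at hz1
      linarith
    have h1 := hstar z hz0
    have h2 : ∑ j, c j * χ (z j) ≤ ∑ j, c j :=
      Finset.sum_le_sum fun j _ => mul_le_of_le_one_right (hc0 j) (hz j)
    linarith
  · push Not at hB
    by_cases hnt : ∃ z, 1 < χ z
    · obtain ⟨p, hp⟩ := quasi_bdd hQ hB hnt
      obtain ⟨j, hj⟩ := hnon p
      have hbj : b j ≠ 0 := by
        intro h0; rw [h0, map_zero] at hj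
        exact absurd hj (not_le.2 zero_lt_one)
      have h1 : χ (b j)⁻¹ ≤ 1 := by
        rw [hp, map_inv₀]
        exact inv_le_one_of_one_le₀ hj
      rw [map_inv₀] at h1
      have h2 : 1 ≤ χ (b j) := (inv_le_one₀ (hQ.pos hbj)).1 h1
      obtain ⟨l, hl, hbl⟩ := other_index b two j
      have h3 := htwo j l hl
      have h4 := hbc j
      have h5 := hbc l
      have h6 := hQ.pos hbl
      linarith
    · push Not at hnt
      have h1 : ∀ z, z ≠ 0 → 1 ≤ χ z := by
        intro z hz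
        have := hnt z⁻¹
        rw [map_inv₀] at this
        exact (inv_le_one₀ (hQ.pos hz)).1 this
      obtain ⟨k, l, hkl, hk, hl⟩ := two
      have h3 := htwo k l hkl
      have h4 := hbc k
      have h5 := hbc l
      have h6 := h1 _ hk
      have h7 := h1 _ hl
      linarith

/-- The contradiction in the infinite case. -/
lemma Data.final_b [NumberField K] (D : Data A b u) {ν : K →*₀ ℝ} {A0 : ℝ} (hQ : Quasi ν A0)
    (hmono : ∀ z w, A z (∑ j, u j) ≤ A w (∑ j, u j) → ν z ≤ ν w) (c : K) (hc : 1 < ν c)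
    (hbig : ∀ C : ℕ, C • (∑ j, u j) < A c (∑ j, u j))
    (harch : ∀ v : InfinitePlace K, 1 < ∑ j, v (b j))
    (hnon : ∀ p : HeightOneSpectrum (𝓞 K), ∃ j, 1 ≤ p.valuation K (b j)) : False := by
  classical
  set g := ∑ j, u j with hg
  have hA := D.act
  by_cases hB : ∃ n : ℕ, 1 < ν n
  · obtain ⟨v, t, ht, hv⟩ := quasi_unbdd hQ hB
    obtain ⟨z, hz, hz1⟩ := arch_test v t ht ν hv b (harch v)
    have hz0 : z ≠ 0 := by
      rintro rfl
      simp at hz1
      linarith
    have h1 := D.star z hz0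
    set Y := ∑ j, b j * z j with hY
    have hY0 : Y ≠ 0 := by
      intro h0
      rw [h0, map_zero] at hz1
      linarith
    have hlarge : ∀ w, 1 < ν w → ∀ C : ℕ, C • g < A w g := by
      intro w hw C
      by_contra hlt
      push Not at hlt
      have h2 : ∀ m : ℕ, A (w ^ m) g ≤ (C ^ m) • g := by
        intro m
        induction m with
        | zero => rw [pow_zero, hA.one, pow_zero, one_smul]
        | succ m ih =>
          rw [pow_succ, hA.mul]
          calc A (w ^ m) (A w g) ≤ A (w ^ m) (C • g) := hA.le _ hlt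
            _ = C • A (w ^ m) g := map_nsmul _ _ _
            _ ≤ C • (C ^ m • g) := nsmul_le_nsmul_right ih C
            _ = C ^ (m + 1) • g := by rw [smul_smul, pow_succ, mul_comm]
      obtain ⟨m, hm⟩ := pow_unbounded_of_one_lt (ν c) hw
      have h3 := hmono (w ^ m) c ((h2 m).trans (hbig _).le)
      rw [map_pow] at h3
      linarith
    have h2 : ∀ j, (Fintype.card J) • A (z j) (u j) < A Y g := by
      intro j
      by_cases hzj : z j = 0
      · rw [hzj, hA.zero, smul_zero]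
        exact hA.pos Y hY0 _ D.gpos
      · have h3 : 1 < ν (Y / z j) := by
          rw [map_div₀]
          exact (one_lt_div (hQ.pos hzj)).2 (lt_of_le_of_lt (hz j) hz1)
        have h4 := hA.lt hzj (hlarge _ h3 (Fintype.card J))
        rw [map_nsmul, ← hA.mul, mul_div_cancel₀ _ hzj] at h4
        refine lt_of_le_of_lt ?_ h4
        exact nsmul_le_nsmul_right (hA.le _ (D.ug j)) _
    obtain ⟨k, -⟩ := D.two
    have h3 : ∑ j, (Fintype.card J) • A (z j) (u j) < ∑ _j : J, A Y g :=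
      Finset.sum_lt_sum_of_nonempty ⟨k, mem_univ k⟩ (fun j _ => h2 j)
    rw [← Finset.smul_sum, Finset.sum_const, Finset.card_univ] at h3
    have h4 : ∑ j, A (z j) (u j) < A Y g := by
      by_contra hlt
      push Not at hlt
      exact absurd h3 (not_lt.2 (nsmul_le_nsmul_right hlt _))
    exact absurd h1 (not_lt.2 h4.le)
  · push Not at hB
    obtain ⟨p, hp⟩ := quasi_bdd hQ hB ⟨c, hc⟩
    obtain ⟨k, hk⟩ := hnon p
    have hb1 : ∀ j, ν (b j) ≤ 1 := by
      intro j
      have := hmono (b j) 1 (by rw [hA.one]; exact (D.bg j).le)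
      rwa [map_one] at this
    have hk1 : p.valuation K (b k) = 1 := le_antisymm ((hp _).1 (hb1 k)) hk
    obtain ⟨l, hkl, hbl⟩ := other_index b D.two k
    refine D.dp p k l hkl hk1 hbl ?_
    intro z hz
    by_contra hlt
    push Not at hlt
    have hz0 : z ≠ 0 := by
      rintro rfl
      rw [hA.zero] at hlt
      exact absurd (D.upos l) (not_lt.2 hlt)
    have hνz : ν z < 1 := by
      refine lt_of_le_of_ne ((hp z).2 hz.le) fun h1 => ?_
      have h2 : ν z⁻¹ ≤ 1 := by rw [map_inv₀, h1, inv_one]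
      rw [hp, map_inv₀] at h2
      have h3 : 0 < p.valuation K z := (Valuation.pos_iff _).2 hz0
      exact absurd ((one_lt_inv₀ h3).2 hz) (not_lt.2 h2)
    have hpow : ∀ m : ℕ, u l ≤ A (z ^ m) (u l) := by
      intro m
      induction m with
      | zero => rw [pow_zero, hA.one]
      | succ m ih =>
        rw [pow_succ, hA.mul]
        exact ih.trans (hA.le _ hlt)
    obtain ⟨m, hm⟩ := exists_pow_lt_of_lt_one (hQ.pos hbl) hνz
    have h1 : A (b l) g ≤ A (z ^ m) g :=
      (D.bu l).le.trans ((hpow m).trans (hA.le _ (D.ug l)))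
    have h2 := hmono _ _ h1
    rw [map_pow] at h2
    linarith

end Pool.Agent.R331.SM
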