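import Mathlib
import Pool.Agent.H448.G.R_pool_sql_team_seeded_b0a926ef.R331.SM.Contra3

set_option autoImplicit false

namespace Pool.Agent.R331.SM

open IsDedekindDomain NumberField Finset

variable {K : Type} [Field K] {N : Type} [AddCommGroup N] [LinearOrder N] [IsOrderedAddMonoid N]
  {J : Type} [Fintype J] {A : K → N →+ N} {b : J → K} {u : J → N}

/-- The large subgroup of finite elements. -/
def fin (g : N) (hg : 0 < g) : AddSubgroup N where
  carrier := {x | ∃ C : ℕ, x ≤ C • g ∧ -x ≤ C • g}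
  add_mem' := by
    rintro x y ⟨C, h1, h2⟩ ⟨C', h3, h4⟩
    refine ⟨C + C', ?_, ?_⟩
    · rw [add_smul]; exact add_le_add h1 h3
    · rw [add_smul, neg_add]; exact add_le_add h2 h4
  zero_mem' := ⟨0, by simp, by simp⟩
  neg_mem' := by
    rintro x ⟨C, h1, h2⟩
    exact ⟨C, h2, by rwa [neg_neg]⟩

lemma fin_of_le {g : N} (hg : 0 < g) {x : N} (hx : 0 ≤ x) (C : ℕ) (h : x ≤ C • g) :
    x ∈ fin g hg :=
  ⟨C, h, (neg_nonpos.2 hx).trans (nsmul_nonneg hg.le C)⟩

/-- The contradiction in the finite case. -/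
lemma Data.case_a [NumberField K] (D : Data A b u) (c : K) (C0 : ℕ)
    (hC0 : A c (∑ j, u j) ≤ C0 • ∑ j, u j)
    (hgc : ∑ j, u j < A c (∑ j, u j))
    (hadd : ∀ y z : K, ¬ (y = 0 ∧ z = 0) →
      A (y + z) (∑ j, u j) < A c (A y (∑ j, u j) + A z (∑ j, u j)))
    (hbd : ∀ z, ∃ C m : ℕ, A z (∑ j, u j) ≤ C • A (c ^ m) (∑ j, u j))
    (harch : ∀ v : InfinitePlace K, 1 < ∑ j, v (b j))
    (hnon : ∀ p : HeightOneSpectrum (𝓞 K), ∃ j, 1 ≤ p.valuation K (b j)) : False := by
  have hA := D.act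
  have hug := D.ug
  have hbu := D.bu
  have hstar := D.star
  have hg0 := D.gpos
  obtain ⟨g, hg⟩ : ∃ g, g = ∑ j, u j := ⟨_, rfl⟩
  rw [← hg] at hug hbu hstar hg0 hC0 hgc hadd hbd
  have hpow : ∀ m : ℕ, A (c ^ m) g ≤ (C0 ^ m) • g := by
    intro m
    induction m with
    | zero => rw [pow_zero, hA.one, pow_zero, one_smul]
    | succ m ih =>
      rw [pow_succ, hA.mul]
      calc A (c ^ m) (A c g) ≤ A (c ^ m) (C0 • g) := hA.le _ hC0
        _ = C0 • A (c ^ m) g := map_nsmul _ _ _
        _ ≤ C0 • (C0 ^ m • g) := nsmul_le_nsmul_right ih C0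
        _ = C0 ^ (m + 1) • g := by rw [smul_smul, pow_succ, mul_comm]
  have hgen : ∀ z, ∃ C : ℕ, A z g ≤ C • g := by
    intro z
    obtain ⟨C, m, h⟩ := hbd z
    exact ⟨C * C0 ^ m, by
      rw [mul_smul]; exact h.trans (nsmul_le_nsmul_right (hpow m) C)⟩
  have hmem : ∀ (z : K) (x : N), x ∈ fin g hg0 → A z x ∈ fin g hg0 := by
    rintro z x ⟨C, h1, h2⟩
    obtain ⟨C', h3⟩ := hgen z
    refine ⟨C * C', ?_, ?_⟩
    · rw [mul_smul]
      refine (hA.le z h1).trans ?_
      rw [map_nsmul]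
      exact nsmul_le_nsmul_right h3 C
    · rw [mul_smul, ← map_neg]
      refine (hA.le z h2).trans ?_
      rw [map_nsmul]
      exact nsmul_le_nsmul_right h3 C
  let Az : K → fin g hg0 →+ fin g hg0 := fun z =>
    AddMonoidHom.mk' (fun x => ⟨A z x, hmem z x x.2⟩) (fun x y => by
      apply Subtype.ext
      change A z (x + y) = A z x + A z y
      rw [map_add])
  have hAz : ∀ z x, ((Az z x : fin g hg0) : N) = A z (x : N) := fun z x => rfl
  let gG : fin g hg0 := ⟨g, fin_of_le hg0 hg0.le 1 (by rw [one_smul])⟩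
  have hgG : (gG : N) = g := rfl
  obtain ⟨φ, hφ, hφ1⟩ := holder (G := fin g hg0) (fun x y => (x : N) ≤ y)
    (fun x y => le_total _ _) (fun x y z h1 h2 => le_trans h1 h2)
    (fun x y z h => by
      change ((x + z : fin g hg0) : N) ≤ ((y + z : fin g hg0) : N)
      rw [AddSubgroup.coe_add, AddSubgroup.coe_add]
      exact add_le_add_left h _) gG
    (by
      change ¬ (g ≤ ((0 : fin g hg0) : N))
      rw [ZeroMemClass.coe_zero]
      exact not_le.2 hg0)
    (by
      rintro ⟨x, C, h1, h2⟩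
      refine ⟨C, ?_⟩
      change x ≤ ((C • gG : fin g hg0) : N)
      rw [AddSubgroup.coe_nsmul]
      exact h1)
  have hφ0 : ∀ x : fin g hg0, 0 ≤ (x : N) → 0 ≤ φ x := by
    intro x hx
    have := hφ 0 x hx
    rwa [map_zero] at this
  have huniq : ∀ (z : K) (x : fin g hg0), φ (Az z x) = φ (Az z gG) * φ x := by
    intro z x
    exact holder_unique (G := fin g hg0) (fun x y => (x : N) ≤ y)
      (fun x y => le_total _ _) gG φ (φ.comp (Az z)) hφ (fun x y h => hφ _ _ (hA.le z h)) hφ1 x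
  let χ : K →*₀ ℝ :=
    { toFun := fun z => φ (Az z gG)
      map_zero' := by
        have : Az 0 gG = 0 := Subtype.ext (hA.zero g)
        rw [this, map_zero]
      map_one' := by
        have : Az 1 gG = gG := Subtype.ext (hA.one g)
        rw [this, hφ1]
      map_mul' := fun x y => by
        have : Az (x * y) gG = Az x (Az y gG) := Subtype.ext (hA.mul x y g)
        rw [this, huniq] }
  have hχ : ∀ z, χ z = φ (Az z gG) := fun z => rfl
  have hχ0 : ∀ z, 0 ≤ χ z := fun z => hφ0 _ (hA.nonneg z hg0.le)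
  have hχc : 1 ≤ χ c := by
    rw [hχ, ← hφ1]
    exact hφ _ _ hgc.le
  have hχadd : ∀ y z, χ (y + z) ≤ χ c * (χ y + χ z) := by
    intro y z
    by_cases hyz : y = 0 ∧ z = 0
    · rw [hyz.1, hyz.2, add_zero, map_zero]; simp
    · have h1 : χ (y + z) ≤ φ (Az c (Az y gG + Az z gG)) := hφ _ _ (hadd y z hyz).le
      have e : φ (Az c (Az y gG + Az z gG)) = χ c * (χ y + χ z) := by
        rw [huniq, map_add φ, hχ, hχ, hχ]
      rwa [e] at h1
  have hQ : Quasi χ (2 * χ c) :=
    { one_le := by linarith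
      nonneg := hχ0
      add_le := fun y z => by
        refine (hχadd y z).trans ?_
        rw [mul_comm 2, mul_assoc]
        apply mul_le_mul_of_nonneg_left _ (by linarith)
        rw [two_mul]
        exact add_le_add (le_max_left _ _) (le_max_right _ _) }
  have humem : ∀ j, u j ∈ fin g hg0 := fun j =>
    fin_of_le hg0 (D.upos j).le 1 (by rw [one_smul]; exact hug j)
  let uG : J → fin g hg0 := fun j => ⟨u j, humem j⟩
  have huG : ∑ j, uG j = gG := by
    apply Subtype.ext
    rw [AddSubgroup.val_finsetSum]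
    exact hg.symm
  refine final_a (b := b) hQ (fun j => φ (uG j)) (fun j => hφ0 _ (D.upos j).le) ?_ ?_ ?_ D.two
    harch hnon
  · rw [← map_sum, huG, hφ1]
  · intro z hz
    have h1 : χ (∑ j, b j * z j) ≤ φ (∑ j, Az (z j) (uG j)) := by
      apply hφ
      change A (∑ j, b j * z j) g ≤ ((∑ j, Az (z j) (uG j) : fin g hg0) : N)
      rw [AddSubgroup.val_finsetSum]
      exact (hstar z hz).le
    have e : φ (∑ j, Az (z j) (uG j)) = ∑ j, φ (uG j) * χ (z j) := by
      rw [map_sum]
      apply Finset.sum_congr rfl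
      intro j _
      rw [huniq, mul_comm, hχ]
    rwa [e] at h1
  · intro j
    exact hφ _ _ (hbu j).le

/-- The contradiction in the infinite case. -/
lemma Data.case_b [NumberField K] (D : Data A b u) (c : K) (hc0 : c ≠ 0)
    (hbig : ∀ C : ℕ, C • (∑ j, u j) < A c (∑ j, u j))
    (hgc : ∑ j, u j < A c (∑ j, u j))
    (hadd : ∀ y z : K, ¬ (y = 0 ∧ z = 0) →
      A (y + z) (∑ j, u j) < A c (A y (∑ j, u j) + A z (∑ j, u j)))
    (hbd : ∀ z, ∃ C m : ℕ, A z (∑ j, u j) ≤ C • A (c ^ m) (∑ j, u j))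
    (harch : ∀ v : InfinitePlace K, 1 < ∑ j, v (b j))
    (hnon : ∀ p : HeightOneSpectrum (𝓞 K), ∃ j, 1 ≤ p.valuation K (b j)) : False := by
  classical
  have hA := D.act
  have hg0 := D.gpos
  have hfin := @Data.final_b K _ N _ _ _ J _ A b u _ D
  obtain ⟨g, hg⟩ : ∃ g, g = ∑ j, u j := ⟨_, rfl⟩
  rw [← hg] at hg0 hgc hadd hbd hbig hfin
  let r : Additive Kˣ → Additive Kˣ → Prop := fun x y =>
    A ((Additive.toMul x : Kˣ) : K) g ≤ A ((Additive.toMul y : Kˣ) : K) g
  obtain ⟨ψ, hψ, hψ1⟩ := holder (G := Additive Kˣ) r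
    (fun x y => le_total _ _) (fun x y z h1 h2 => le_trans h1 h2)
    (fun x y z h => by
      change A ((Additive.toMul x * Additive.toMul z : Kˣ) : K) g ≤
        A ((Additive.toMul y * Additive.toMul z : Kˣ) : K) g
      rw [mul_comm (Additive.toMul x), mul_comm (Additive.toMul y), Units.val_mul, Units.val_mul,
        hA.mul, hA.mul]
      exact hA.le _ h) (Additive.ofMul (Units.mk0 c hc0))
    (by
      change ¬ (A c g ≤ A ((1 : Kˣ) : K) g)
      rw [Units.val_one, hA.one]
      exact not_le.2 hgc)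
    (by
      intro x
      obtain ⟨C, m, h⟩ := hbd ((Additive.toMul x : Kˣ) : K)
      refine ⟨m + 1, ?_⟩
      change A ((Additive.toMul x : Kˣ) : K) g ≤ A (((Units.mk0 c hc0) ^ (m + 1) : Kˣ) : K) g
      rw [Units.val_pow_eq_pow_val, Units.val_mk0, pow_succ, hA.mul]
      refine h.trans ?_
      rw [← map_nsmul]
      exact hA.le _ (hbig C).le)
  let ν0 : K → ℝ := fun z => if h : z = 0 then 0 else
    Real.exp (ψ (Additive.ofMul (Units.mk0 z h)))
  have hν0 : ν0 0 = 0 := by simp [ν0]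
  have hνu : ∀ x : Kˣ, ν0 (x : K) = Real.exp (ψ (Additive.ofMul x)) := by
    intro x
    have : ¬ ((x : K) = 0) := x.ne_zero
    simp only [ν0, dif_neg this, Units.mk0_val]
  let ν : K →*₀ ℝ :=
    { toFun := ν0
      map_zero' := hν0
      map_one' := by
        rw [← Units.val_one, hνu, ofMul_one, map_zero, Real.exp_zero]
      map_mul' := fun x y => by
        by_cases hx : x = 0
        · rw [hx, zero_mul, hν0, zero_mul]
        by_cases hy : y = 0
        · rw [hy, mul_zero, hν0, mul_zero]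
        obtain ⟨x, rfl⟩ : ∃ x' : Kˣ, (x' : K) = x := ⟨Units.mk0 x hx, rfl⟩
        obtain ⟨y, rfl⟩ : ∃ y' : Kˣ, (y' : K) = y := ⟨Units.mk0 y hy, rfl⟩
        rw [← Units.val_mul, hνu, hνu, hνu, ofMul_mul, map_add, Real.exp_add] }
  have hν : ∀ z, ν z = ν0 z := fun z => rfl
  have hνnn : ∀ z, 0 ≤ ν z := by
    intro z
    rw [hν]
    by_cases hz : z = 0
    · rw [hz, hν0]
    · obtain ⟨x, rfl⟩ : ∃ x' : Kˣ, (x' : K) = z := ⟨Units.mk0 z hz, rfl⟩
      rw [hνu]
      exact (Real.exp_pos _).le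
  have hmono : ∀ z w, A z g ≤ A w g → ν z ≤ ν w := by
    intro z w h
    by_cases hz : z = 0
    · rw [hz, map_zero]; exact hνnn w
    have hw : w ≠ 0 := by
      rintro rfl
      rw [hA.zero] at h
      exact absurd (hA.pos z hz g hg0) (not_lt.2 h)
    obtain ⟨x, rfl⟩ : ∃ x' : Kˣ, (x' : K) = z := ⟨Units.mk0 z hz, rfl⟩
    obtain ⟨y, rfl⟩ : ∃ y' : Kˣ, (y' : K) = w := ⟨Units.mk0 w hw, rfl⟩
    rw [hν, hν, hνu, hνu]
    exact Real.exp_le_exp.2 (hψ _ _ h)
  have hνc : ν c = Real.exp 1 := by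
    have : c = ((Units.mk0 c hc0 : Kˣ) : K) := rfl
    rw [hν, this, hνu]
    exact congrArg Real.exp hψ1
  have he1 : 1 < Real.exp 1 := Real.one_lt_exp_iff.2 one_pos
  have hkey : ∀ w, g + g ≤ A c g → A w g + A w g ≤ A c (A w g) := by
    intro w h
    have := hA.le w h
    rwa [map_add, ← hA.mul, mul_comm, hA.mul] at this
  have hgg : g + g ≤ A c g := by
    have := (hbig 2).le
    rwa [two_smul] at this
  have hQ : Quasi ν (Real.exp 1 * Real.exp 1) :=
    { one_le := by nlinarith
      nonneg := hνnn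
      add_le := by
        have main : ∀ y z, A y g ≤ A z g → ν (y + z) ≤ Real.exp 1 * Real.exp 1 * ν z := by
          intro y z h
          by_cases hyz : y = 0 ∧ z = 0
          · rw [hyz.1, hyz.2, add_zero, map_zero]; simp
          have h1 : A (y + z) g ≤ A (c * (c * z)) g := by
            refine (hadd y z hyz).le.trans ?_
            rw [hA.mul]
            apply hA.le
            rw [hA.mul]
            exact (add_le_add_left h _).trans (hkey z hgg)
          have h2 := hmono _ _ h1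
          rw [map_mul, map_mul, hνc, ← mul_assoc] at h2
          exact h2
        intro y z
        rcases le_total (A y g) (A z g) with h | h
        · refine (main y z h).trans ?_
          exact mul_le_mul_of_nonneg_left (le_max_right _ _) (by positivity)
        · rw [add_comm]
          refine (main z y h).trans ?_
          exact mul_le_mul_of_nonneg_left (le_max_left _ _) (by positivity) }
  exact hfin hQ hmono c (by rw [hνc]; exact he1) hbig harch hnon

/-- The data of a strictly positive functional violates one of the local conditions. -/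
theorem Data.contra [NumberField K] (D : Data A b u)
    (harch : ∀ v : InfinitePlace K, 1 < ∑ j, v (b j))
    (hnon : ∀ p : HeightOneSpectrum (𝓞 K), ∃ j, 1 ≤ p.valuation K (b j)) : False := by
  obtain ⟨c, hc0, hcmax, hgc, hadd⟩ := D.exists_c
  have hbd := D.bounded c hc0 hcmax hgc hadd
  by_cases hab : ∃ C0 : ℕ, A c (∑ j, u j) ≤ C0 • ∑ j, u j
  · obtain ⟨C0, hC0⟩ := hab
    exact D.case_a c C0 hC0 hgc hadd hbd harch hnon
  · push Not at hab
    exact D.case_b c hc0 hab hgc hadd hbd harch hnon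

end Pool.Agent.R331.SM
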