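import Mathlib
import Pool.Agent.H448.G.R_pool_sql_team_seeded_b0a926ef.R331.SM.Zorn

set_option autoImplicit false

namespace Pool.Agent.R331.SM

variable {K : Type} [Field K]

/-- The group ring of the multiplicative group. -/
abbrev GR (K : Type) [Field K] := MonoidAlgebra ℤ Kˣ

open Classical in
/-- The group ring element of an element of the field (zero for zero). -/
noncomputable def mon (x : K) : GR K :=
  if h : x = 0 then 0 else MonoidAlgebra.of ℤ Kˣ (Units.mk0 x h)

lemma mon_zero : mon (0 : K) = 0 := by simp [mon]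

lemma mon_unit (γ : Kˣ) : mon (γ : K) = MonoidAlgebra.of ℤ Kˣ γ := by
  simp [mon]

lemma mon_mul (x y : K) : mon (x * y) = mon x * mon y := by
  by_cases hx : x = 0
  · subst hx; rw [zero_mul, mon_zero, zero_mul]
  · by_cases hy : y = 0
    · subst hy; rw [mul_zero, mon_zero, mul_zero]
    · obtain ⟨u, rfl⟩ : ∃ u : Kˣ, (u : K) = x := ⟨Units.mk0 x hx, rfl⟩
      obtain ⟨v, rfl⟩ : ∃ v : Kˣ, (v : K) = y := ⟨Units.mk0 y hy, rfl⟩
      rw [mon_unit, mon_unit, ← map_mul, ← mon_unit, Units.val_mul]

open Classical in
lemma mon_coeff (x : K) (γ : Kˣ) : (mon x).coeff γ = if x = γ then 1 else 0 := by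
  by_cases hx : x = 0
  · subst hx
    rw [mon_zero, if_neg (fun h => γ.ne_zero h.symm)]
    rfl
  · obtain ⟨u, rfl⟩ : ∃ u : Kˣ, (u : K) = x := ⟨Units.mk0 x hx, rfl⟩
    rw [mon_unit, MonoidAlgebra.of_apply, MonoidAlgebra.coeff_single, Finsupp.single_apply]
    simp [Units.ext_iff]

/-- Two functions with the same multiset of values differ by a permutation. -/
lemma exists_perm {N : ℕ} {β : Type*} (f g : Fin N → β)
    (h : (Finset.univ.val.map f) = (Finset.univ.val.map g)) :
    ∃ σ : Equiv.Perm (Fin N), ∀ k, f k = g (σ k) := by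
  classical
  have hc : ∀ b : β, Nonempty ({k // f k = b} ≃ {k // g k = b}) := by
    intro b
    refine ⟨Fintype.equivOfCardEq ?_⟩
    have h1 := congrArg (Multiset.count b) h
    rw [Multiset.count_map, Multiset.count_map] at h1
    rw [Fintype.card_subtype, Fintype.card_subtype]
    have e1 : ∀ F : Fin N → β, (Finset.univ.filter fun x => F x = b).card =
        Multiset.card (Multiset.filter (fun a => b = F a) Finset.univ.val) := by
      intro F
      rw [Finset.card_def, Finset.filter_val]
      congr 1
      apply Multiset.filter_congr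
      intro x _
      exact eq_comm
    rw [e1, e1]; exact h1
  choose e he using fun b => (⟨Classical.choice (hc b), trivial⟩ :
    ∃ _ : {k // f k = b} ≃ {k // g k = b}, True)
  refine ⟨(Equiv.sigmaFiberEquiv f).symm.trans
    ((Equiv.sigmaCongrRight e).trans (Equiv.sigmaFiberEquiv g)), ?_⟩
  intro k
  have := (e (f k) ⟨k, rfl⟩).prop
  simp only [Equiv.trans_apply]
  exact this.symm

/-- The group generators of the semiring. -/
def SS (K : Type) [Field K] : Set (GR K) :=
  (AddSubsemigroup.closure (Set.range fun γ : Kˣ => MonoidAlgebra.of ℤ Kˣ γ) : Set (GR K))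

lemma SS_unit (γ : Kˣ) : MonoidAlgebra.of ℤ Kˣ γ ∈ SS K :=
  AddSubsemigroup.subset_closure ⟨γ, rfl⟩

lemma SS_one : (1 : GR K) ∈ SS K := by
  have := SS_unit (1 : Kˣ)
  rwa [map_one] at this

lemma SS_add : ∀ s ∈ SS K, ∀ t ∈ SS K, s + t ∈ SS K := by
  intro s hs t ht
  exact AddSubsemigroup.add_mem _ hs ht

lemma SS_mul : ∀ s ∈ SS K, ∀ t ∈ SS K, s * t ∈ SS K := by
  intro s hs t ht
  refine AddSubsemigroup.closure_induction (p := fun s _ => s * t ∈ SS K) ?_ ?_ hs
  · rintro _ ⟨γ, rfl⟩
    refine AddSubsemigroup.closure_induction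
      (p := fun t _ => MonoidAlgebra.of ℤ Kˣ γ * t ∈ SS K) ?_ ?_ ht
    · rintro _ ⟨δ, rfl⟩
      simp only
      rw [← map_mul]
      exact SS_unit _
    · intro x y _ _ hx hy
      rw [mul_add]
      exact SS_add _ hx _ hy
  · intro x y _ _ hx hy
    rw [add_mul]
    exact SS_add _ hx _ hy

variable {n : ℕ}

/-- The diagonal. -/
def diagS (K : Type) [Field K] (n : ℕ) : Submodule (GR K) (Fin n → GR K) where
  carrier := {f | ∃ r, ∀ i, f i = r}
  add_mem' := by
    rintro a b ⟨r, hr⟩ ⟨s, hs⟩
    exact ⟨r + s, fun i => by rw [Pi.add_apply, hr, hs]⟩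
  zero_mem' := ⟨0, fun i => rfl⟩
  smul_mem' := by
    rintro c x ⟨r, hr⟩
    exact ⟨c • r, fun i => by rw [Pi.smul_apply, hr]⟩

/-- The marginal vector of a point. -/
noncomputable def wv (x : Fin n → K) : Fin n → GR K := fun i => mon (x i)

lemma smul_wv (γ : Kˣ) (x : Fin n → K) :
    MonoidAlgebra.of ℤ Kˣ γ • wv x = wv (fun i => (γ : K) * x i) := by
  funext i
  simp only [wv, Pi.smul_apply, smul_eq_mul]
  rw [mon_mul, mon_unit]

/-- The points of the hyperplane. -/
def Hyp (a : Fin n → K) : Set (Fin n → K) := {x | x ≠ 0 ∧ ∑ i, a i * x i = 0}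

/-- The generators. -/
def gens (a : Fin n → K) : Set ((Fin n → GR K) ⧸ diagS K n) :=
  (fun x => (diagS K n).mkQ (wv x)) '' Hyp a

/-- The cone generated by the marginal vectors. -/
def PP (a : Fin n → K) : Set ((Fin n → GR K) ⧸ diagS K n) :=
  (AddSubsemigroup.closure (gens a) : Set ((Fin n → GR K) ⧸ diagS K n))

lemma PP_smul (a : Fin n → K) : ∀ s ∈ SS K, ∀ x ∈ PP a, s • x ∈ PP a := by
  intro s hs x hx
  refine AddSubsemigroup.closure_induction (p := fun s _ => s • x ∈ PP a) ?_ ?_ hs
  · rintro _ ⟨γ, rfl⟩
    refine AddSubsemigroup.closure_induction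
      (p := fun x _ => MonoidAlgebra.of ℤ Kˣ γ • x ∈ PP a) ?_ ?_ hx
    · rintro _ ⟨y, ⟨hy0, hy⟩, rfl⟩
      simp only
      rw [← map_smul, smul_wv]
      refine AddSubsemigroup.subset_closure ⟨_, ⟨?_, ?_⟩, rfl⟩
      · intro h
        apply hy0
        funext i
        have := congrFun h i
        simpa using this
      · have : ∀ i, a i * ((γ : K) * y i) = γ * (a i * y i) := fun i => by ring
        simp only [this]
        rw [← Finset.mul_sum, hy, mul_zero]
    · intro u v _ _ hu hv
      rw [smul_add]
      exact AddSubsemigroup.add_mem _ hu hv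
  · intro u v _ _ hu hv
    rw [add_smul]
    exact AddSubsemigroup.add_mem _ hu hv

lemma PP_list (a : Fin n → K) (p) (hp : p ∈ PP a) : ∃ l : List (Fin n → K), l ≠ [] ∧
    (∀ x ∈ l, x ∈ Hyp a) ∧ (diagS K n).mkQ (l.map wv).sum = p := by
  refine AddSubsemigroup.closure_induction (p := fun p _ => ∃ l : List (Fin n → K), l ≠ [] ∧
    (∀ x ∈ l, x ∈ Hyp a) ∧ (diagS K n).mkQ (l.map wv).sum = p) ?_ ?_ hp
  · rintro _ ⟨x, hx, rfl⟩
    exact ⟨[x], by simp, by simpa using hx, by simp⟩
  · rintro u v _ _ ⟨l, hl, hl1, hl2⟩ ⟨m, hm, hm1, hm2⟩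
    refine ⟨l ++ m, by simp [hl], ?_, ?_⟩
    · intro x hx
      rcases List.mem_append.1 hx with h | h
      · exact hl1 x h
      · exact hm1 x h
    · rw [List.map_append, List.sum_append, map_add, hl2, hm2]

lemma coeff_sum (l : List (Fin n → K)) (i : Fin n) (γ : Kˣ) :
    open Classical in
    ((l.map wv).sum i : GR K).coeff γ = (l.map (fun x => x i)).count (γ : K) := by
  classical
  induction l with
  | nil => simp
  | cons x l ih =>
    rw [List.map_cons, List.sum_cons, List.map_cons, List.count_cons, Pi.add_apply]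
    have h1 : ∀ (u v : GR K), (u + v : GR K).coeff γ = u.coeff γ + v.coeff γ :=
      fun u v => rfl
    rw [h1, ih, wv, mon_coeff]
    push_cast
    rw [add_comm]
    congr 1
    by_cases h : x i = γ <;> simp [h]

/-- Either there is a solution in permutations or an ordered module. -/
theorem order_or_perm (a : Fin n → K) :
    (∃ (N : ℕ) (π : Fin n → Equiv.Perm (Fin N)) (v : Fin N → K), v ≠ 0 ∧
      ∀ k, ∑ i, a i * v (π i k) = 0) ∨
    (∃ (N : Type) (_ : AddCommGroup N) (_ : LinearOrder N) (_ : IsOrderedAddMonoid N)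
      (_ : Module (GR K) N) (e : Fin n → N), ∑ i, e i = 0 ∧
      (∀ x : Fin n → K, x ≠ 0 → ∑ i, a i * x i = 0 → 0 < ∑ i, mon (x i) • e i) ∧
      ∀ γ : Kˣ, ∀ y : N, 0 < y → 0 < MonoidAlgebra.of ℤ Kˣ γ • y) := by
  classical
  rcases Nat.eq_zero_or_pos n with hn0 | hn
  · left
    subst hn0
    refine ⟨1, fun i => i.elim0, 1, one_ne_zero, fun k => by simp⟩
  by_cases h0 : (0 : (Fin n → GR K) ⧸ diagS K n) ∈ PP a
  · left
    obtain ⟨l, hl, hl1, hl2⟩ := PP_list a 0 h0
    rw [Submodule.mkQ_apply, Submodule.Quotient.mk_eq_zero] at hl2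
    obtain ⟨r, hr⟩ := hl2
    have hcount : ∀ i j : Fin n, ∀ c : K,
        (l.map (fun x => x i)).count c = (l.map (fun x => x j)).count c := by
      intro i j
      have hne : ∀ c : K, c ≠ 0 →
          (l.map (fun x => x i)).count c = (l.map (fun x => x j)).count c := by
        intro c hc
        obtain ⟨u, rfl⟩ : ∃ u : Kˣ, (u : K) = c := ⟨Units.mk0 c hc, rfl⟩
        have h1 := coeff_sum l i u
        have h2 := coeff_sum l j u
        rw [hr i] at h1
        rw [hr j] at h2
        exact_mod_cast h1.symm.trans h2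
      intro c
      by_cases hc : c = 0
      · subst hc
        have hf : (l.map (fun x => x i)).filter (· ≠ 0) |>.Perm
            ((l.map (fun x => x j)).filter (· ≠ 0)) := by
          rw [List.perm_iff_count]
          intro c
          by_cases hc : c = 0
          · subst hc
            rw [List.count_eq_zero_of_not_mem, List.count_eq_zero_of_not_mem] <;> simp
          · rw [List.count_filter (by simpa using hc), List.count_filter (by simpa using hc)]
            exact hne c hc
        have hlen := hf.length_eq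
        have key : ∀ L : List K, L.count 0 + (L.filter (· ≠ 0)).length = L.length := by
          intro L
          induction L with
          | nil => simp
          | cons x L ih =>
            by_cases hx : x = 0
            · subst hx
              simp only [List.count_cons_self, List.length_cons]
              rw [List.filter_cons_of_neg (by simp)]
              omega
            · rw [List.count_cons_of_ne hx, List.filter_cons_of_pos (by simpa using hx)]
              simp only [List.length_cons]
              omega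
        have k1 := key (l.map (fun x => x i))
        have k2 := key (l.map (fun x => x j))
        rw [List.length_map] at k1 k2
        omega
      · exact hne c hc
    -- the points
    set N := l.length with hN
    have hcons : ∀ i : Fin n, (Finset.univ.val.map fun k : Fin N => (l.get k) i) =
        ((l.map (fun x => x i) : List K) : Multiset K) := by
      intro i
      rw [Fin.univ_val_map]
      congr 1
      have h1 := congrArg (List.map (fun x : Fin n → K => x i)) (List.ofFn_get l)
      rw [List.map_ofFn] at h1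
      exact h1
    let i0 : Fin n := ⟨0, hn⟩
    have hperm : ∀ i : Fin n, ∃ σ : Equiv.Perm (Fin N), ∀ k, (l.get k) i = (l.get (σ k)) i0 := by
      intro i
      apply exists_perm (fun k : Fin N => (l.get k) i) (fun k : Fin N => (l.get k) i0)
      rw [hcons, hcons]
      rw [Multiset.coe_eq_coe, List.perm_iff_count]
      exact hcount i i0
    choose π hπ using hperm
    refine ⟨N, π, fun k => (l.get k) i0, ?_, ?_⟩
    · intro hv
      have hpos : 0 < N := List.length_pos_of_ne_nil hl
      apply (hl1 (l.get ⟨0, hpos⟩) (List.get_mem _ _)).1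
      funext i
      rw [hπ i ⟨0, hpos⟩]
      exact congrFun hv _
    · intro k
      have := (hl1 (l.get k) (List.get_mem _ _)).2
      calc ∑ i, a i * (l.get (π i k)) i0 = ∑ i, a i * (l.get k) i := by
            refine Finset.sum_congr rfl fun i _ => ?_
            rw [hπ i k]
        _ = 0 := this
  · right
    have hc : Cone (SS K) (PP a) :=
      ⟨fun x hx y hy => AddSubsemigroup.add_mem _ hx hy, PP_smul a, h0⟩
    obtain ⟨N, i1, i2, i3, i4, φ, hφ, hS⟩ := exists_order (SS K) SS_one SS_add SS_mul hc
    refine ⟨N, i1, i2, i3, i4, fun i => φ ((diagS K n).mkQ (Pi.single i 1)), ?_, ?_, ?_⟩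
    · rw [← map_sum, ← map_sum]
      have : (∑ i, Pi.single i (1 : GR K) : Fin n → GR K) ∈ diagS K n := by
        refine ⟨1, fun i => ?_⟩
        rw [Finset.sum_apply, Finset.sum_eq_single i]
        · simp
        · intro j _ hj
          rw [Pi.single_eq_of_ne hj.symm]
        · intro h; exact absurd (Finset.mem_univ i) h
      rw [Submodule.mkQ_apply, (Submodule.Quotient.mk_eq_zero _).2 this, map_zero]
    · intro x hx0 hx
      have h1 : ∑ i, mon (x i) • φ ((diagS K n).mkQ (Pi.single i 1)) =
          φ ((diagS K n).mkQ (wv x)) := by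
        simp only [← map_smul]
        rw [← map_sum, ← map_sum]
        congr 2
        funext j
        rw [Finset.sum_apply, Finset.sum_eq_single j]
        · simp [wv]
        · intro i _ hi
          rw [Pi.smul_apply, Pi.single_eq_of_ne hi.symm, smul_zero]
        · intro h; exact absurd (Finset.mem_univ j) h
      rw [h1]
      exact hφ _ (AddSubsemigroup.subset_closure ⟨x, ⟨hx0, hx⟩, rfl⟩)
    · intro γ y hy
      exact hS _ (SS_unit γ) y hy

end Pool.Agent.R331.SM
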